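import Pool.Agent.Helper71.PR.Goals

/-!
# Packet PR-SEQ: one sequence with rank one limits for all exterior powers
-/

set_option autoImplicit false

namespace Pool.Agent.Helper40.PR

open Matrix Filter Topology Pool.Agent.Helper71.PR

theorem js_nonempty {r n : ℕ} (h : r ≤ n) : Nonempty (JS r n) := by
  have h1 : (Finset.powersetCard r (Finset.univ : Finset (Fin n))).Nonempty := by
    rw [Finset.powersetCard_nonempty]
    simpa using h
  obtain ⟨s, hs⟩ := h1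
  exact ⟨⟨s, (Finset.mem_powersetCard.1 hs).2⟩⟩

theorem cp_ne_zero {r n : ℕ} (h : r ≤ n) (g : SLn n) : cp r g.1 ≠ 0 := by
  have := js_nonempty h
  intro h0
  have h1 := cp_det_ne r g.1 (by rw [g.2]; exact one_ne_zero)
  rw [h0] at h1
  exact h1 Matrix.det_zero

theorem n1_pos {ι : Type} [Fintype ι] {X : Matrix ι ι ℝ} (h : X ≠ 0) : 0 < n1 X := by
  have h1 : ∃ a b, X a b ≠ 0 := by
    by_contra hcon
    push Not at hcon
    apply h
    ext a b
    simpa using hcon a b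
  obtain ⟨a, b, hab⟩ := h1
  unfold n1
  refine Finset.sum_pos' (fun i _ => Finset.sum_nonneg fun j _ => abs_nonneg _) ⟨a, Finset.mem_univ a, ?_⟩
  exact Finset.sum_pos' (fun j _ => abs_nonneg _) ⟨b, Finset.mem_univ b, abs_pos.2 hab⟩

theorem entry_le_n1 {ι : Type} [Fintype ι] (X : Matrix ι ι ℝ) (a b : ι) : |X a b| ≤ n1 X := by
  unfold n1
  have h1 : |X a b| ≤ ∑ b, |X a b| :=
    Finset.single_le_sum (f := fun b => |X a b|) (fun j _ => abs_nonneg _) (Finset.mem_univ b)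
  have h2 : ∑ b, |X a b| ≤ ∑ a, ∑ b, |X a b| :=
    Finset.single_le_sum (f := fun a => ∑ b, |X a b|) (fun j _ => Finset.sum_nonneg fun _ _ => abs_nonneg _)
      (Finset.mem_univ a)
  exact h1.trans h2

theorem n1_smul {ι : Type} [Fintype ι] (c : ℝ) (X : Matrix ι ι ℝ) : n1 (c • X) = |c| * n1 X := by
  unfold n1
  simp only [Matrix.smul_apply, smul_eq_mul, abs_mul, Finset.mul_sum]

theorem n1_tendsto {ι : Type} [Fintype ι] {F : ℕ → Matrix ι ι ℝ} {X : Matrix ι ι ℝ}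
    (h : Tendsto F atTop (𝓝 X)) : Tendsto (fun m => n1 (F m)) atTop (𝓝 (n1 X)) := by
  unfold n1
  refine tendsto_finsetSum _ fun a _ => tendsto_finsetSum _ fun b _ => ?_
  have h1 : Tendsto (fun m => F m a) atTop (𝓝 (X a)) := (tendsto_pi_nhds.1 h) a
  exact ((tendsto_pi_nhds.1 h1) b).abs

/-- every sequence has a subsequence all of whose compound matrices converge after rescaling -/
theorem nice_subseq {n : ℕ} (δ : ℕ → SLn n) :
    ∃ φ : ℕ → ℕ, StrictMono φ ∧ ∀ r ≤ n, ∃ (t : ℕ → ℝ) (X : Matrix (JS r n) (JS r n) ℝ), X ≠ 0 ∧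
      Tendsto (fun m => t m • cp r (δ (φ m)).1) atTop (𝓝 X) := by
  classical
  let F : ℕ → (∀ r : Fin (n + 1), JS (r : ℕ) n → JS (r : ℕ) n → ℝ) :=
    fun m r a b => (n1 (cp (r : ℕ) (δ m).1))⁻¹ * cp (r : ℕ) (δ m).1 a b
  let K : Set (∀ r : Fin (n + 1), JS (r : ℕ) n → JS (r : ℕ) n → ℝ) :=
    Set.pi Set.univ fun r => Set.pi Set.univ fun a => Set.pi Set.univ fun b => Set.Icc (-1) 1
  have hK : IsCompact K :=
    isCompact_univ_pi fun r => isCompact_univ_pi fun a => isCompact_univ_pi fun b => isCompact_Icc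
  have hF : ∀ m, F m ∈ K := by
    intro m r _ a _ b _
    have h0 : cp (r : ℕ) (δ m).1 ≠ 0 := cp_ne_zero (Nat.lt_succ_iff.1 r.2) (δ m)
    have h1 := n1_pos h0
    have h2 := entry_le_n1 (cp (r : ℕ) (δ m).1) a b
    have h3 : |F m r a b| ≤ 1 := by
      show |(n1 (cp (r : ℕ) (δ m).1))⁻¹ * cp (r : ℕ) (δ m).1 a b| ≤ 1
      rw [abs_mul, abs_of_pos (inv_pos.2 h1), inv_mul_le_iff₀ h1, mul_one]
      exact h2
    exact abs_le.1 h3
  obtain ⟨Z, _, φ, hφ, hlim⟩ := hK.tendsto_subseq hF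
  refine ⟨φ, hφ, fun r hr => ?_⟩
  let X : Matrix (JS r n) (JS r n) ℝ := Z ⟨r, Nat.lt_succ_of_le hr⟩
  have h1 : Tendsto (fun m => (n1 (cp r (δ (φ m)).1))⁻¹ • cp r (δ (φ m)).1) atTop (𝓝 X) :=
    (tendsto_pi_nhds.1 hlim) ⟨r, Nat.lt_succ_of_le hr⟩
  refine ⟨fun m => (n1 (cp r (δ (φ m)).1))⁻¹, X, ?_, h1⟩
  have h2 := n1_tendsto h1
  have h3 : ∀ m, n1 ((n1 (cp r (δ (φ m)).1))⁻¹ • cp r (δ (φ m)).1) = 1 := by
    intro m
    have h4 := n1_pos (cp_ne_zero hr (δ (φ m)))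
    rw [n1_smul, abs_of_pos (inv_pos.2 h4), inv_mul_cancel₀ h4.ne']
  have h5 : n1 X = 1 := by
    simp only [h3] at h2
    exact tendsto_nhds_unique h2 tendsto_const_nhds
  intro h0
  rw [h0] at h5
  unfold n1 at h5
  simp at h5

/-- a nice sequence, with rank one limits for `r < s` -/
def Nice {n : ℕ} (Γ : Subgroup (SLn n)) (s : ℕ) (γ : ℕ → SLn n) : Prop :=
  (∀ m, γ m ∈ Γ) ∧ ∀ r ≤ n, ∃ (t : ℕ → ℝ) (X : Matrix (JS r n) (JS r n) ℝ), X ≠ 0 ∧
    Tendsto (fun m => t m • cp r (γ m).1) atTop (𝓝 X) ∧ (r < s → ∃ a b, X = vecMulVec a b)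

theorem exists_row {ι : Type} {X : Matrix ι ι ℝ} (h : X ≠ 0) : ∃ I : ι, (fun J => X I J) ≠ 0 := by
  by_contra hcon
  push Not at hcon
  apply h
  ext a b
  exact congrFun (hcon a) b

theorem exists_col {ι : Type} {X : Matrix ι ι ℝ} (h : X ≠ 0) : ∃ K : ι, (fun J => X J K) ≠ 0 := by
  by_contra hcon
  push Not at hcon
  apply h
  ext a b
  exact congrFun (hcon b) a

theorem mul_vecMulVec' {ι : Type} [Fintype ι] (A : Matrix ι ι ℝ) (a b : ι → ℝ) :
    A * vecMulVec a b = vecMulVec (A *ᵥ a) b := by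
  ext i j
  simp [Matrix.mul_apply, vecMulVec_apply, Matrix.mulVec, dotProduct, Finset.sum_mul, mul_assoc]

theorem vecMulVec_mul' {ι : Type} [Fintype ι] (A : Matrix ι ι ℝ) (a b : ι → ℝ) :
    vecMulVec a b * A = vecMulVec a (b ᵥ* A) := by
  ext i j
  simp [Matrix.mul_apply, vecMulVec_apply, Matrix.vecMul, dotProduct, Finset.mul_sum, mul_assoc]

theorem lim_mul {ι : Type} [Fintype ι] (F G : ℕ → Matrix ι ι ℝ) (X Y H : Matrix ι ι ℝ)
    (hF : Tendsto F atTop (𝓝 X)) (hG : Tendsto G atTop (𝓝 Y)) :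
    Tendsto (fun m => F m * H * G m) atTop (𝓝 (X * H * Y)) := by
  have hF' : ∀ i j, Tendsto (fun m => F m i j) atTop (𝓝 (X i j)) :=
    fun i j => (tendsto_pi_nhds.1 ((tendsto_pi_nhds.1 hF) i)) j
  have hG' : ∀ i j, Tendsto (fun m => G m i j) atTop (𝓝 (Y i j)) :=
    fun i j => (tendsto_pi_nhds.1 ((tendsto_pi_nhds.1 hG) i)) j
  refine tendsto_pi_nhds.2 fun i => tendsto_pi_nhds.2 fun j => ?_
  simp only [Matrix.mul_apply]
  exact tendsto_finsetSum _ fun a _ =>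
    (tendsto_finsetSum _ fun b _ => (hF' i b).mul_const (H b a)).mul (hG' a j)

theorem entry_ne {ι : Type} [Fintype ι] (X H Y : Matrix ι ι ℝ) (I K : ι)
    (h : (fun J => X I J) ⬝ᵥ (H *ᵥ fun J => Y J K) ≠ 0) : X * H * Y ≠ 0 := by
  intro h0
  apply h
  have h3 := congrFun (congrFun h0 I) K
  rw [Matrix.mul_assoc] at h3
  simpa [Matrix.mul_apply, Matrix.mulVec, dotProduct] using h3

theorem step_one {n : ℕ} (r s : ℕ) (γ δ : ℕ → SLn n) (h : SLn n) (t t' : ℕ → ℝ)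
    (X Y : Matrix (JS r n) (JS r n) ℝ)
    (h6 : Tendsto (fun m => t m • cp r (γ m).1) atTop (𝓝 X)) (hX : r < s → ∃ a b, X = vecMulVec a b)
    (h7 : Tendsto (fun m => t' m • cp r (δ m).1) atTop (𝓝 Y)) (hY : r = s → ∃ a b, Y = vecMulVec a b)
    (hne : X * cp r h.1 * Y ≠ 0) :
    ∃ (t : ℕ → ℝ) (X : Matrix (JS r n) (JS r n) ℝ), X ≠ 0 ∧
      Tendsto (fun m => t m • cp r (γ m * h * δ m).1) atTop (𝓝 X) ∧
        (r < s + 1 → ∃ a b, X = vecMulVec a b) := by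
  refine ⟨fun m => t m * t' m, X * cp r h.1 * Y, hne, ?_, ?_⟩
  · have h4 : (fun m => (t m * t' m) • cp r (γ m * h * δ m).1) =
        fun m => (t m • cp r (γ m).1) * cp r h.1 * (t' m • cp r (δ m).1) := by
      funext m
      have h5 : (γ m * h * δ m).1 = (γ m).1 * h.1 * (δ m).1 := rfl
      rw [h5, cp_mul, cp_mul, Matrix.smul_mul, Matrix.smul_mul, Matrix.mul_smul, smul_smul]
    rw [h4]
    exact lim_mul _ _ _ _ _ h6 h7
  · intro hrs
    rcases Nat.lt_succ_iff_lt_or_eq.1 hrs with h5 | h5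
    · obtain ⟨a', b', h8⟩ := hX h5
      refine ⟨a', b' ᵥ* (cp r h.1 * Y), ?_⟩
      rw [h8, Matrix.mul_assoc]
      exact vecMulVec_mul' _ _ _
    · obtain ⟨a', b', h8⟩ := hY h5
      refine ⟨(X * cp r h.1) *ᵥ a', b', ?_⟩
      rw [h8]
      exact mul_vecMulVec' _ _ _

theorem nice_step (h1 : G_N) (h2 : G_MR) {n : ℕ} (hn : 1 ≤ n) (Γ : Subgroup (SLn n)) (hZ : ZD Γ)
    (s : ℕ) (hs : s ≤ n) (γ : ℕ → SLn n) (hγ : Nice Γ s γ) : ∃ γ', Nice Γ (s + 1) γ' := by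
  obtain ⟨δ, tδ, a, b, hδ, ha, hb, hlim⟩ := h2 n hn Γ hZ s hs
  obtain ⟨φ, hφ, hnice⟩ := nice_subseq δ
  obtain ⟨hγΓ, hγn⟩ := hγ
  have hab : vecMulVec a b ≠ 0 := by
    intro h0
    obtain ⟨i, hi⟩ := Function.ne_iff.1 ha
    obtain ⟨j, hj⟩ := Function.ne_iff.1 hb
    have := congrFun (congrFun h0 i) j
    rw [vecMulVec_apply] at this
    exact mul_ne_zero hi hj this
  -- the data of the second sequence
  have hδ2 : ∀ r ≤ n, ∃ (t : ℕ → ℝ) (Y : Matrix (JS r n) (JS r n) ℝ), Y ≠ 0 ∧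
      Tendsto (fun m => t m • cp r (δ (φ m)).1) atTop (𝓝 Y) ∧ (r = s → ∃ a b, Y = vecMulVec a b) := by
    intro r hr
    by_cases hrs : r = s
    · subst hrs
      exact ⟨fun m => tδ (φ m), vecMulVec a b, hab, hlim.comp hφ.tendsto_atTop, fun _ => ⟨a, b, rfl⟩⟩
    · obtain ⟨t, Y, hY, hYl⟩ := hnice r hr
      exact ⟨t, Y, hY, hYl, fun h => absurd h hrs⟩
  choose t X hX hXl hXr using hγn
  choose t' Y hY hYl hYr using hδ2
  choose I hI using fun r hr => exists_row (hX r hr)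
  choose K hK using fun r hr => exists_col (hY r hr)
  have hlt : ∀ r : Fin (n + 1), (r : ℕ) ≤ n := fun r => Nat.lt_succ_iff.1 r.2
  obtain ⟨h, hhΓ, hh⟩ := h1 n hn Γ hZ (Fin (n + 1)) (fun r => (r : ℕ))
    (fun r J => X r (hlt r) (I r (hlt r)) J)
    (fun r J => Y r (hlt r) J (K r (hlt r))) (fun r => hI r (hlt r)) (fun r => hK r (hlt r))
  refine ⟨fun m => γ m * h * δ (φ m), fun m => Γ.mul_mem (Γ.mul_mem (hγΓ m) hhΓ) (hδ (φ m)), ?_⟩
  intro r hr
  have h9 : X r hr * cp r h.1 * Y r hr ≠ 0 :=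
    entry_ne (X r hr) (cp r h.1) (Y r hr) (I r hr) (K r hr) (hh ⟨r, Nat.lt_succ_of_le hr⟩)
  exact step_one r s γ (fun m => δ (φ m)) h (t r hr) (t' r hr) (X r hr) (Y r hr) (hXl r hr) (hXr r hr)
    (hYl r hr) (hYr r hr) h9

theorem seq_lem (h1 : G_N) (h2 : G_MR) : G_SEQ := by
  intro n hn Γ hZ
  have key : ∀ s, s ≤ n + 1 → ∃ γ, Nice Γ s γ := by
    intro s
    induction s with
    | zero =>
      intro _
      refine ⟨fun _ => 1, fun _ => Γ.one_mem, fun r hr => ⟨fun _ => 1, cp r (1 : SLn n).1, cp_ne_zero hr 1, ?_,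
        fun h => absurd h (Nat.not_lt_zero r)⟩⟩
      simp only [one_smul]
      exact tendsto_const_nhds
    | succ s ih =>
      intro hs
      obtain ⟨γ, hγ⟩ := ih (by omega)
      exact nice_step h1 h2 hn Γ hZ s (by omega) γ hγ
  obtain ⟨γ, hγΓ, hγ⟩ := key (n + 1) le_rfl
  have h3 : ∀ r, ∃ (t : ℕ → ℝ) (a b : JS r n → ℝ), r ≤ n →
      (a ≠ 0 ∧ b ≠ 0 ∧ Tendsto (fun m => t m • cp r (γ m).1) atTop (𝓝 (vecMulVec a b))) := by
    intro r
    by_cases hr : r ≤ n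
    · obtain ⟨t, X, hX, hXl, hXr⟩ := hγ r hr
      obtain ⟨a, b, hab⟩ := hXr (Nat.lt_succ_of_le hr)
      refine ⟨t, a, b, fun _ => ⟨?_, ?_, ?_⟩⟩
      · rintro rfl
        apply hX
        rw [hab]
        ext i j
        simp [vecMulVec_apply]
      · rintro rfl
        apply hX
        rw [hab]
        ext i j
        simp [vecMulVec_apply]
      · rw [← hab]
        exact hXl
    · exact ⟨fun _ => 0, fun _ => 0, fun _ => 0, fun h => absurd h hr⟩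
  choose t a b hab using h3
  exact ⟨γ, fun m r => t r m, a, b, hγΓ, fun r hr => hab r hr⟩

end Pool.Agent.Helper40.PR
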